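import Pool.Agent.H3.OT.Asm

/-!
# Almost perfect tilings in ordered graphs: no constant error, even with a surplus in the degree

Let `KR r T` be the ordered complete `r`-partite graph whose parts are `r` intervals of `T`
vertices; its parameter `χ*_cr` is `r` (`r ≥ 2`). Let `r ≥ 3` and `T ≥ 2`. There are arbitrarily
large ordered graphs `G` on `n` vertices whose minimum degree exceeds `(1 - 1/χ*_cr) n` by
`n ^ (1 - 2/(T+1)) / (256 r²)` and in which every `KR r T`-tiling misses at least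
`n ^ (1 - 2/(T+1)) / (256 r)` vertices. So for every integer `r ≥ 3` and every `ε > 0` there is
`H` with `χ*_cr(H) = r` for which even the degree condition `δ(G) ≥ (1 - 1/χ*_cr) n + n ^ (1 - ε)`
does not force an `H`-tiling missing fewer than `n ^ (1 - ε)` vertices.

The graph: `r - 1` independent intervals of `a` vertices and a last interval of `a + r s` vertices
which carries a graph `F` without `K_{T,T}` of minimum degree at least `r s`; different intervals
are completely joined. Along a copy of `KR r T` whose `T`-th vertex is not in the first interval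
the numbers of the intervals increase with every part, so the last two parts lie in the last
interval and give a `K_{T,T}` in `F`. Hence every copy has `T` vertices in the first interval.
-/

set_option autoImplicit false

namespace Pool.Agent.Results.MP_ced62d_co.SurplusDegree

open Pool.Agent.H730R4 Pool.Agent.Y996.OT Pool.Agent.H3.OT

/-- **Theorem.** (1) For all `r ≥ 3` and `T ≥ 2` the ordered complete `r`-partite graph
`H = KR r T` has `χ*_cr(H) = r`, and for every `N` there is an ordered graph `G` on `n ≥ N`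
vertices with minimum degree at least `(1 - 1/χ*_cr(H)) n + n ^ (1 - 2/(T+1)) / (256 r²)` in which
every `H`-tiling misses at least `n ^ (1 - 2/(T+1)) / (256 r)` vertices. (2) For every integer
`r ≥ 3` and every `ε > 0` there is an ordered graph `H` with `χ*_cr(H) = r` such that for every
`N` there is an ordered graph `G` on `n ≥ N` vertices with minimum degree at least
`(1 - 1/χ*_cr(H)) n + n ^ (1 - ε)` in which every `H`-tiling misses at least `n ^ (1 - ε)`
vertices. (3) In particular the answer to the question is negative. -/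
theorem result :
    (∀ r T : ℕ, 3 ≤ r → 2 ≤ T → chiStarCr (KR r T) = r ∧
      ∀ N : ℕ, ∃ (n : ℕ) (G : SimpleGraph (Fin n)), N ≤ n ∧
        (∀ v, (1 - 1 / chiStarCr (KR r T)) * (n : ℝ) +
            (n : ℝ) ^ (1 - 2 / ((T : ℝ) + 1)) / (256 * (r : ℝ) ^ 2) ≤
              ((G.neighborSet v).ncard : ℝ)) ∧
        ∀ P : Set (Fin (r * T) → Fin n), IsTiling (KR r T) G P →
          (n : ℝ) ^ (1 - 2 / ((T : ℝ) + 1)) / (256 * (r : ℝ)) ≤ (((covered P)ᶜ).ncard : ℝ)) ∧
    (∀ r : ℕ, 3 ≤ r → ∀ ε : ℝ, 0 < ε → ∃ (h : ℕ) (H : SimpleGraph (Fin h)), chiStarCr H = r ∧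
      ∀ N : ℕ, ∃ (n : ℕ) (G : SimpleGraph (Fin n)), N ≤ n ∧
        (∀ v, (1 - 1 / chiStarCr H) * (n : ℝ) + (n : ℝ) ^ (1 - ε) ≤
          ((G.neighborSet v).ncard : ℝ)) ∧
        ∀ P : Set (Fin h → Fin n), IsTiling H G P →
          (n : ℝ) ^ (1 - ε) ≤ (((covered P)ᶜ).ncard : ℝ)) ∧
    ¬ (∀ (h : ℕ) (H : SimpleGraph (Fin h)), ∃ C : ℕ, ∀ (n : ℕ) (G : SimpleGraph (Fin n)),
        (∀ v, (1 - 1 / chiStarCr H) * (n : ℝ) ≤ ((G.neighborSet v).ncard : ℝ)) →
        ∃ P : Set (Fin h → Fin n), IsTiling H G P ∧ ((covered P)ᶜ).ncard ≤ C) := by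
  have h2 : ∀ r : ℕ, 3 ≤ r → ∀ ε : ℝ, 0 < ε → ∃ (h : ℕ) (H : SimpleGraph (Fin h)),
      chiStarCr H = r ∧
      ∀ N : ℕ, ∃ (n : ℕ) (G : SimpleGraph (Fin n)), N ≤ n ∧
        (∀ v, (1 - 1 / chiStarCr H) * (n : ℝ) + (n : ℝ) ^ (1 - ε) ≤
          ((G.neighborSet v).ncard : ℝ)) ∧
        ∀ P : Set (Fin h → Fin n), IsTiling H G P →
          (n : ℝ) ^ (1 - ε) ≤ (((covered P)ᶜ).ncard : ℝ) := by
    intro r hr ε hε
    obtain ⟨k, rfl⟩ : ∃ k, r = k + 1 := ⟨r - 1, by omega⟩
    obtain ⟨T, hT, hN⟩ := nearly k (by omega) ε hε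
    have hc := chi (k + 1) T (by omega) (by omega)
    refine ⟨(k + 1) * T, KR (k + 1) T, hc, fun N => ?_⟩
    obtain ⟨n, hn, G, hdeg, hP⟩ := hN N
    refine ⟨n, G, hn, fun v => ?_, hP⟩
    rw [hc]
    exact hdeg v
  refine ⟨?_, h2, ?_⟩
  · intro r T hr hT
    obtain ⟨k, rfl⟩ : ∃ k, r = k + 1 := ⟨r - 1, by omega⟩
    have hc := chi (k + 1) T (by omega) (by omega)
    refine ⟨hc, fun N => ?_⟩
    obtain ⟨n, hn, G, hdeg, hP⟩ := power k T (by omega) hT N
    refine ⟨n, G, hn, fun v => ?_, hP⟩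
    rw [hc]
    exact hdeg v
  · intro hall
    obtain ⟨h, H, hc, hH⟩ := h2 3 le_rfl (1 / 2) (by norm_num)
    obtain ⟨C, hC⟩ := hall h H
    obtain ⟨n, G, hn, hdeg, hP⟩ := hH ((C + 1) ^ 2)
    obtain ⟨P, hPt, hPC⟩ := hC n G (fun v => by
      have h1 := hdeg v
      have h2 : (0 : ℝ) ≤ (n : ℝ) ^ (1 - 1 / 2 : ℝ) := Real.rpow_nonneg (Nat.cast_nonneg _) _
      linarith)
    have h3 := hP P hPt
    have h4 : ((C : ℝ) + 1) ≤ (n : ℝ) ^ (1 - 1 / 2 : ℝ) := by
      have h5 : (((C : ℝ) + 1) ^ 2) ≤ n := by exact_mod_cast hn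
      have h6 : (1 - 1 / 2 : ℝ) = 1 / 2 := by norm_num
      rw [h6, ← Real.sqrt_eq_rpow]
      exact Real.le_sqrt_of_sq_le h5
    have h7 : (((covered P)ᶜ).ncard : ℝ) ≤ C := by exact_mod_cast hPC
    linarith

end Pool.Agent.Results.MP_ced62d_co.SurplusDegree
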